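import Pool.Agent.R612.EG.Main

/-!
# An undetermined edge-query game on countable graphs

We answer Q1 of MP_5af839_lc negatively: there is a graph property `S` (a set of graphs on `ℕ`
closed under isomorphism) such that neither Seeker nor Hider has a winning strategy in the
game `G(S)`.
-/

namespace Pool.Agent.Results.MP_5af839_lc.Undetermined

open Pool.Agent.R612.EG

theorem result : ∃ S : Set (SimpleGraph ℕ),
    (∀ G G' : SimpleGraph ℕ, Nonempty (G ≃g G') → G ∈ S → G' ∈ S) ∧
    (¬ ∃ σ : List Move → Edge, SeekerStrategyWins S σ) ∧
    (¬ ∃ τ : List Move → Edge → Bool, HiderStrategyWins S τ) :=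
  undetermined

end Pool.Agent.Results.MP_5af839_lc.Undetermined
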